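import Pool.Agent.U857.CV.Main

/-!
# Central values of newforms of prime level: one half is sharp only if the mollified values are `0` and `2`

For primes `N` let `H N` be the set of the even newforms of weight `2` and level `N`, `L(f) = L(1/2, f)`, and let `p_A(N)` be the
proportion of the `f` with `L(f) > (log N) ^ (-A)` (more generally: any finite families with weights `ω`, for instance the
harmonic ones). Known (`Known`): `L(f) ≥ 0`, and for every `η > 0` there are mollifiers `M` such that the averages of `L M`,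
`(L M) ^ 2`, `M ^ 2` are `1 + o(1)`, at most `2 + η`, at most `(log N) ^ B` (Iwaniec and Sarnak; by Cauchy's inequality this gives
`liminf p_A ≥ 1/2`). Let `A > B / 2`.

(1) `liminf p_A > 1/2` if and only if for ONE mollifier `M` the mean square distance of the mollified values `L M` from the function
with the values `2` (where `L > (log N) ^ (-A)`) and `0` (elsewhere) is at least `δ > η` for large primes `N`, and then this
distance stays away from zero for ALL mollifiers.

(2) Q1 is equivalent to `liminf p_A > 1/2` for some `A > B / 2`.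

(3) If Q1 fails, then for all `A > B / 2`, `0 < δ ≤ 1` and ALL mollifiers `M` with `η < δ ^ 3`, for infinitely many primes `N` we have
`|p_A(N) - 1/2| ≤ δ`, and for all `f` but a proportion of `δ` either `L(f) > (log N) ^ (-A)` and `|L(f) M(f) - 2| ≤ δ`, or
`L(f) ≤ (log N) ^ (-A)` and `|L(f) M(f)| ≤ δ`.

(4) If for ONE mollifier the mean square distance of `L M` from the set `{0, 2}` is at least `δ > η` for large primes `N`, then
`p_A(N) ≥ 1/2 + c` for large primes `N`, for all `c < (δ - η) / 4` and `A > B / 2`: Q1 is true (and there are no Siegel zeros).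
-/

set_option autoImplicit false

namespace Pool.Agent.Results.MP_cc4f83_nt.TwoValuedCriterion

open Filter Pool.Agent.U857.CV

/-- **Theorem.** (1) The criterion for `liminf p_A > 1/2`, (2) Q1 in terms of the `A > B / 2`, (3) the mollified values if Q1
fails, (4) a quantitative sufficient condition for Q1 which does not depend on `A`. -/
theorem result {H : ℕ → Type} [∀ N, Fintype (H N)] (ω L : ∀ N, H N → ℝ) (B : ℝ) (hK : Known ω L B) :
    (∀ A : ℝ, B / 2 < A →
      [MoreThanHalf ω L A,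
        ∃ δ : ℝ, 0 < δ ∧ ∀ η : ℝ, 0 < η → ∀ M : ∀ N, H N → ℝ, Mollifier ω L B η M →
          ∀ᶠ N in primes, δ ≤ dist2 ω L A M N,
        ∃ η : ℝ, 0 < η ∧ ∃ M : ∀ N, H N → ℝ, Mollifier ω L B η M ∧ ∃ δ : ℝ, η < δ ∧
          ∀ᶠ N in primes, δ ≤ dist2 ω L A M N].TFAE) ∧
    ((∃ A : ℝ, 0 < A ∧ MoreThanHalf ω L A) ↔ ∃ A : ℝ, 0 < A ∧ B / 2 < A ∧ MoreThanHalf ω L A) ∧
    ((¬ ∃ A : ℝ, 0 < A ∧ MoreThanHalf ω L A) → ∀ A : ℝ, B / 2 < A → ∀ δ : ℝ, 0 < δ → δ ≤ 1 →
      ∀ (η : ℝ) (M : ∀ N, H N → ℝ), η < δ ^ 3 → Mollifier ω L B η M →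
        ∃ᶠ N in primes, |prop ω L A N - 1 / 2| ≤ δ ∧ farProp ω L A M δ N ≤ δ) ∧
    ∀ (η : ℝ) (M : ∀ N, H N → ℝ), Mollifier ω L B η M → ∀ δ : ℝ, (∀ᶠ N in primes, δ ≤ dist02 ω L M N) →
      ∀ c : ℝ, c < (δ - η) / 4 → ∀ A : ℝ, B / 2 < A → ∀ᶠ N in primes, 1 / 2 + c ≤ prop ω L A N := by
  refine ⟨fun A hA => criterion hK hA, ⟨?_, fun ⟨A, h0, _, h⟩ => ⟨A, h0, h⟩⟩, fun h A hA δ hδ hδ1 η M hη hM => ?_,
    fun η M hM δ h c hc A hA => sufficient hK hM hc h hA⟩
  · rintro ⟨A, h0, h⟩
    exact ⟨max A (B / 2 + 1), lt_of_lt_of_le h0 (le_max_left _ _), lt_of_lt_of_le (by linarith) (le_max_right _ _),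
      mono_A hK (le_max_left _ _) h⟩
  · refine twoValued hK hM hA (fun hM => h ⟨max A 1, lt_of_lt_of_le one_pos (le_max_right _ _), ?_⟩) hδ hδ1 hη
    exact mono_A hK (le_max_left _ _) hM

end Pool.Agent.Results.MP_cc4f83_nt.TwoValuedCriterion
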